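import Pool.Agent.helper74.MQ.Spec
import Pool.Agent.helper6.MP.PRONG

set_option autoImplicit false

open Complex Metric Set Filter Topology MeasureTheory MPS

noncomputable section

namespace MQ

/-- monotonicity of `Slit`. -/
theorem HIT_mono {k : ℕ} [NeZero k] (b g : ZMod k → ℂ) (ψ : ℂ → ℂ) (y T d : ℝ) (hTd : T ≤ d)
    (h : Slit b g ψ T y) : Slit b g ψ d y := by
  rintro ⟨e, he, χ, hχ, hE⟩
  refine h ⟨e, he, χ, ?_, hE⟩
  have hsub : HP 0 ∪ {w : ℂ | |w.im - y| < e ∧ w.re < T + e} ⊆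
      HP 0 ∪ {w : ℂ | |w.im - y| < e ∧ w.re < d + e} := by
    rintro w (hw | ⟨h1, h2⟩)
    · exact Or.inl hw
    · exact Or.inr ⟨h1, by linarith⟩
  exact ⟨hχ.diff.mono hsub, fun w hw => hχ.av w (hsub hw), fun w hw => hχ.eq w (hsub hw)⟩

/-- an extension to a left invariant open set gives no slit. -/
theorem HIT_noslit {k : ℕ} [NeZero k] (b g : ZMod k → ℂ) (ψ : ℂ → ℂ) (y T TE : ℝ) (hT : T < TE)
    (χ : ℂ → ℂ) (Ω : Set ℂ) (hΩ : IsOpen Ω) (hHP : HP 0 ⊆ Ω)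
    (hL : ∀ w ∈ Ω, ∀ s : ℝ, 0 ≤ s → w - s ∈ Ω) (hmem : ∀ t : ℝ, t < TE → (t : ℂ) + y * I ∈ Ω)
    (hχ : IsNat b g χ Ω) (hE : EqOn χ (hat ψ) (HP 0)) : ¬ Slit b g ψ T y := by
  intro hs
  apply hs
  set t₁ : ℝ := (T + TE) / 2 with ht₁
  have h1 : T < t₁ := by rw [ht₁]; linarith
  have h2 : t₁ < TE := by rw [ht₁]; linarith
  obtain ⟨δ, hδ, hball⟩ := Metric.isOpen_iff.1 hΩ _ (hmem t₁ h2)
  refine ⟨min δ (t₁ - T), lt_min hδ (by linarith), χ, ?_, hE⟩
  have hsub : HP 0 ∪ {w : ℂ | |w.im - y| < min δ (t₁ - T) ∧ w.re < T + min δ (t₁ - T)} ⊆ Ω := by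
    rintro w (hw | ⟨h3, h4⟩)
    · exact hHP hw
    · have h5 : ((t₁ : ℂ) + w.im * I) ∈ Ω := by
        apply hball
        rw [mem_ball, dist_eq_norm]
        have : (t₁ : ℂ) + w.im * I - ((t₁ : ℂ) + y * I) = ((w.im - y : ℝ) : ℂ) * I := by
          push_cast; ring
        rw [this, norm_mul, Complex.norm_I, mul_one, Complex.norm_real, Real.norm_eq_abs]
        exact lt_of_lt_of_le h3 (min_le_left _ _)
      have h6 : w.re ≤ t₁ := by
        have := min_le_right δ (t₁ - T)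
        linarith
      have h7 := hL _ h5 (t₁ - w.re) (by linarith)
      have h8 : (t₁ : ℂ) + w.im * I - ((t₁ - w.re : ℝ) : ℂ) = w := by
        apply Complex.ext <;> simp
      rwa [h8] at h7
  exact ⟨hχ.diff.mono hsub, fun w hw => hχ.av w (hsub hw), fun w hw => hχ.eq w (hsub hw)⟩

/-- the ray is unique. -/
theorem HIT_uniq (hNU : NU_stmt) {k : ℕ} [NeZero k] (b g : ZMod k → ℂ) (ψ : ℂ → ℂ) (y : ℝ)
    (χ χ' : ℂ → ℂ) (Ω Ω' : Set ℂ) (hΩ : IsOpen Ω) (hΩ' : IsOpen Ω') (hHP : HP 0 ⊆ Ω)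
    (hHP' : HP 0 ⊆ Ω') (hχ : IsNat b g χ Ω) (hχ' : IsNat b g χ' Ω') (hE : EqOn χ (hat ψ) (HP 0))
    (hE' : EqOn χ' (hat ψ) (HP 0)) (T : ℝ) (h1 : ∀ t : ℝ, t < T → (t : ℂ) + y * I ∈ Ω)
    (h2 : ∀ t : ℝ, t < T → (t : ℂ) + y * I ∈ Ω') (t : ℝ) (ht : t < T) :
    χ ((t : ℂ) + y * I) = χ' ((t : ℂ) + y * I) := by
  have hw : ∀ t₀ : ℝ, t₀ < 0 → (t₀ : ℂ) + y * I ∈ HP 0 := by
    intro t₀ h0
    show ((t₀ : ℂ) + y * I).re < -0
    simp [h0]
  set t₀ : ℝ := min t 0 - 1 with ht₀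
  have ht0 : t₀ < 0 := by
    have := min_le_right t 0
    rw [ht₀]; linarith
  have ht0' : t₀ < t := by
    have := min_le_left t 0
    rw [ht₀]; linarith
  have hm := hw t₀ ht0
  have hopen : IsOpen (HP 0) := isOpen_lt Complex.continuous_re continuous_const
  have hval : χ ((t₀ : ℂ) + y * I) = χ' ((t₀ : ℂ) + y * I) := by rw [hE hm, hE' hm]
  obtain ⟨σ, hσ, hσd, -, hseg⟩ := hNU k b g χ χ' Ω Ω' _ _ hΩ hΩ' hχ hχ' (hHP hm) (hHP' hm) hval
  have hd : deriv χ ((t₀ : ℂ) + y * I) = deriv χ' ((t₀ : ℂ) + y * I) := by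
    apply Filter.EventuallyEq.deriv_eq
    filter_upwards [hopen.mem_nhds hm] with z hz
    rw [hE hz, hE' hz]
  have hd0 : deriv χ' ((t₀ : ℂ) + y * I) ≠ 0 := by
    intro h0
    have := hχ'.eq _ (hHP' hm)
    rw [h0] at this
    norm_num at this
  have hσ1 : σ = 1 := by
    rcases hσ with h | h
    · exact h
    · exfalso
      rw [hd, h] at hσd
      apply hd0
      have : deriv χ' ((t₀ : ℂ) + y * I) = 0 := by linear_combination (1 / 2 : ℂ) * hσd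
      exact this
  subst hσ1
  have := (hseg ((t - t₀ : ℝ) : ℂ) (fun u hu => by
    have h3 : t₀ + u * (t - t₀) < T := by nlinarith [hu.1, hu.2]
    have h4 : (t₀ : ℂ) + y * I + (u : ℂ) * ((t - t₀ : ℝ) : ℂ) =
        ((t₀ + u * (t - t₀) : ℝ) : ℂ) + y * I := by push_cast; ring
    rw [one_mul, h4]
    exact ⟨h1 _ h3, h2 _ h3⟩)).1
  rw [one_mul] at this
  have h5 : (t₀ : ℂ) + y * I + ((t - t₀ : ℝ) : ℂ) = (t : ℂ) + y * I := by push_cast; ring
  rwa [h5] at this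

/-- the times agree. -/
theorem HIT_time (hNU : NU_stmt) (hTP : TP_stmt) {k : ℕ} [NeZero k] (b g : ZMod k → ℂ)
    (ψ : ℂ → ℂ) (y T TE : ℝ) (hb : Function.Injective b) (ζ : ℂ) (hζ : (Ppoly b g).eval ζ = 0)
    (hD : Dep b g ψ y T) (χ : ℂ → ℂ) (Ω : Set ℂ) (hΩ : IsOpen Ω) (hHP : HP 0 ⊆ Ω)
    (hL : ∀ w ∈ Ω, ∀ s : ℝ, 0 ≤ s → w - s ∈ Ω) (hmem : ∀ t : ℝ, t < TE → (t : ℂ) + y * I ∈ Ω)
    (hχ : IsNat b g χ Ω) (hE : EqOn χ (hat ψ) (HP 0))
    (hlim : Tendsto (fun t : ℝ => χ ((t : ℂ) + y * I)) (𝓝[<] TE) (𝓝 ζ)) : TE = T := by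
  apply le_antisymm
  · by_contra hc
    push Not at hc
    exact HIT_noslit b g ψ y T TE hc χ Ω hΩ hHP hL hmem hχ hE hD.1
  · by_contra hc
    push Not at hc
    have hns := hD.2 TE hc
    unfold Slit at hns
    rw [not_not] at hns
    obtain ⟨e, he, χ', hχ', hE'⟩ := hns
    set Ω' : Set ℂ := HP 0 ∪ {w : ℂ | |w.im - y| < e ∧ w.re < TE + e} with hΩd
    have hΩ' : IsOpen Ω' := by
      apply IsOpen.union
      · exact isOpen_lt Complex.continuous_re continuous_const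
      · have hc1 : Continuous fun w : ℂ => |w.im - y| :=
          (Complex.continuous_im.sub continuous_const).abs
        exact (isOpen_lt hc1 continuous_const).inter (isOpen_lt Complex.continuous_re continuous_const)
    have hm : ∀ t : ℝ, t < TE + e → (t : ℂ) + y * I ∈ Ω' := by
      intro t ht
      right
      constructor
      · simp [he]
      · simpa using ht
    have heq := HIT_uniq hNU b g ψ y χ χ' Ω Ω' hΩ hΩ' hHP subset_union_left hχ hχ' hE hE' TE hmem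
      (fun t ht => hm t (by linarith))
    have hTE : ((TE : ℂ) + y * I) ∈ Ω' := hm TE (by linarith)
    have hcont : ContinuousAt χ' ((TE : ℂ) + y * I) :=
      (hχ'.diff.differentiableAt (hΩ'.mem_nhds hTE)).continuousAt
    have hpath : ContinuousAt (fun t : ℝ => (t : ℂ) + y * I) TE := by fun_prop
    have hlim' : Tendsto (fun t : ℝ => χ' ((t : ℂ) + y * I)) (𝓝[<] TE) (𝓝 (χ' ((TE : ℂ) + y * I))) :=
      (ContinuousAt.comp (f := fun t : ℝ => (t : ℂ) + y * I) (x := TE) hcont hpath).tendsto.mono_left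
        nhdsWithin_le_nhds
    have hlim2 : Tendsto (fun t : ℝ => χ ((t : ℂ) + y * I)) (𝓝[<] TE)
        (𝓝 (χ' ((TE : ℂ) + y * I))) := by
      refine hlim'.congr' ?_
      filter_upwards [self_mem_nhdsWithin] with t ht
      exact (heq t ht).symm
    have hζ' : ζ = χ' ((TE : ℂ) + y * I) := tendsto_nhds_unique hlim hlim2
    have hav : ∀ j, ζ ≠ b j := fun j => by rw [hζ']; exact hχ'.av _ hTE j
    have hBB := (hTP k b g hb).1 ζ hav
    rw [hζ] at hBB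
    have hprod : ∏ i, (ζ - b i) ^ 2 ≠ 0 :=
      Finset.prod_ne_zero_iff.2 fun i _ => pow_ne_zero _ (sub_ne_zero.2 (hav i))
    have hB0 : BB b g ζ = 0 := by
      rcases mul_eq_zero.1 hBB with h | h
      · exact h
      · exact absurd h hprod
    have := hχ'.eq _ hTE
    rw [← hζ', hB0, mul_zero] at this
    exact zero_ne_one this

theorem HIT_root (m : ℕ) (a T : ℝ) (haT : a < T) (u : ℝ → ℂ) (hu : ContinuousOn u (Ioo a T))
    (h : ∀ t ∈ Ioo a T, u t ^ (m + 2) = ((t - T : ℝ) : ℂ) ^ 2) :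
    ∃ c : ZMod (m + 2), ∀ t ∈ Ioo a T, u t = (((T - t) ^ ((2 : ℝ) / ((m : ℝ) + 2)) : ℝ) : ℂ) *
        Complex.exp (2 * Real.pi * I * (c.val : ℂ) / ((m : ℂ) + 2)) := by
  have hp : ∀ t ∈ Ioo a T, 0 < (T - t) ^ ((2 : ℝ) / ((m : ℝ) + 2)) := fun t ht =>
    Real.rpow_pos_of_pos (by linarith [ht.2]) _
  have hpp : ∀ t ∈ Ioo a T, ((T - t) ^ ((2 : ℝ) / ((m : ℝ) + 2))) ^ (m + 2) = (T - t) ^ 2 := by
    intro t ht
    have h0 : 0 ≤ T - t := by linarith [ht.2]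
    rw [← Real.rpow_natCast, ← Real.rpow_mul h0]
    have : (2 : ℝ) / ((m : ℝ) + 2) * ((m + 2 : ℕ) : ℝ) = ((2 : ℕ) : ℝ) := by
      push_cast
      have : (m : ℝ) + 2 ≠ 0 := by positivity
      field_simp
    rw [this, Real.rpow_natCast]
  set v : ℝ → ℂ := fun t => u t / (((T - t) ^ ((2 : ℝ) / ((m : ℝ) + 2)) : ℝ) : ℂ) with hv
  have hvc : ContinuousOn v (Ioo a T) := by
    refine hu.div ?_ (fun t ht => by
      rw [Complex.ofReal_ne_zero]; exact (hp t ht).ne')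
    refine Complex.continuous_ofReal.comp_continuousOn ?_
    refine ContinuousOn.rpow_const (by fun_prop) ?_
    intro t ht
    left
    have := ht.2
    intro h0
    linarith
  have hv1 : ∀ t ∈ Ioo a T, v t ^ (m + 2) = 1 := by
    intro t ht
    rw [hv]
    simp only
    rw [div_pow, h t ht]
    have h3 := hpp t ht
    have h4 : ((((T - t) ^ ((2 : ℝ) / ((m : ℝ) + 2)) : ℝ) : ℂ)) ^ (m + 2) = (((T - t) ^ 2 : ℝ) : ℂ) := by
      rw [← h3]; push_cast; ring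
    rw [h4]
    have h5 : ((T : ℂ) - t) ≠ 0 := by
      have : (T - t : ℝ) ≠ 0 := by linarith [ht.2]
      intro h6
      apply this
      exact_mod_cast h6
    push_cast
    rw [div_eq_one_iff_eq (pow_ne_zero _ h5)]
    ring
  let R : Set ℂ := {z : ℂ | z ^ (m + 2) = 1}
  have hRfin : R.Finite := by
    have hR : R = ((Polynomial.nthRoots (m + 2) (1 : ℂ)).toFinset : Set ℂ) := by
      ext z
      simp [R, Polynomial.mem_nthRoots]
    rw [hR]
    exact Finset.finite_toSet _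
  have hRd : IsDiscrete R := hRfin.isDiscrete
  have hconst : ∀ t ∈ Ioo a T, ∀ t' ∈ Ioo a T, v t = v t' := by
    intro t ht t' ht'
    exact (isPreconnected_Ioo).constant_of_mapsTo (T := R) hRd hvc (fun t ht => hv1 t ht) ht ht'
  set t₀ : ℝ := (a + T) / 2 with ht₀
  have ht0 : t₀ ∈ Ioo a T := ⟨by rw [ht₀]; linarith, by rw [ht₀]; linarith⟩
  obtain ⟨i, hi, hiv⟩ := (Complex.isPrimitiveRoot_exp (m + 2) (by omega)).eq_pow_of_pow_eq_one
    (hv1 t₀ ht0)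
  refine ⟨(i : ZMod (m + 2)), fun t ht => ?_⟩
  have h6 : v t = Complex.exp (2 * Real.pi * I / ((m + 2 : ℕ) : ℂ)) ^ i := by
    rw [hconst t ht t₀ ht0, hiv]
  rw [ZMod.val_natCast_of_lt hi]
  rw [← Complex.exp_nat_mul] at h6
  have h7 : (i : ℂ) * (2 * Real.pi * I / ((m + 2 : ℕ) : ℂ)) =
      2 * Real.pi * I * (i : ℂ) / ((m : ℂ) + 2) := by
    push_cast; ring
  rw [h7] at h6
  rw [← h6, hv]
  simp only
  have h8 : ((((T - t) ^ ((2 : ℝ) / ((m : ℝ) + 2)) : ℝ) : ℂ)) ≠ 0 := by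
    rw [Complex.ofReal_ne_zero]; exact (hp t ht).ne'
  field_simp

theorem HIT (hEND : END_stmt) (hTP : TP_stmt) (hPRC : PRC_stmt) (hNU : NU_stmt) : HIT_stmt := by
  intro k _ b g i ψ y T hb hg hPN hD
  have hd : 0 < |T| + 1 := by positivity
  obtain ⟨ζ, hζ, TE, hTE0, χ, Ω, hΩ, hHP, hL, hmem, hχ, hE, hlim⟩ := hEND k b g i ψ (|T| + 1) y hb hg
    hPN hd (HIT_mono b g ψ y T (|T| + 1) (by linarith [le_abs_self T]) hD.1)
  have hTT : TE = T := HIT_time hNU hTP b g ψ y T TE hb ζ hζ hD χ Ω hΩ hHP hL hmem hχ hE hlim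
  subst hTT
  refine ⟨ζ, hζ, fun h r s hLoc => ?_⟩
  obtain ⟨hm, B₁, r₀, hr₀, -, -, hB⟩ := PRONG_loc hTP b g ζ hb hζ
  set m := (Ppoly b g).rootMultiplicity ζ with hmd
  have hr' : 0 < min r r₀ := lt_min hLoc.rpos hr₀
  have hsub : ball ζ (min r r₀) ⊆ ball ζ r := ball_subset_ball (min_le_left _ _)
  have hζr : ζ ∈ ball ζ r := mem_ball_self hLoc.rpos
  obtain ⟨a, haT, ha⟩ := PRONG_ray hPRC b g ζ m hm B₁ (min r r₀) hr'
    (fun z hz => hB z (ball_subset_ball (min_le_right _ _) hz)) (fun z => h z ^ (m + 2))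
    ((hLoc.diff.mono hsub).pow _)
    (by
      intro z hz
      have hdz : DifferentiableAt ℂ h z := hLoc.diff.differentiableAt (isOpen_ball.mem_nhds (hsub hz))
      have h1 : deriv (fun z => h z ^ (m + 2)) z = ((m : ℂ) + 2) * h z ^ (m + 1) * deriv h z := by
        rw [deriv_fun_pow hdz]
        push_cast
        ring_nf
      rw [h1]
      have h2 := hLoc.eq z (hsub hz)
      have h3 : (((m : ℂ) + 2) * h z ^ (m + 1) * deriv h z) ^ 2 =
          h z ^ (m + 2) * (((m : ℂ) + 2) ^ 2 * h z ^ m * deriv h z ^ 2) := by ring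
      rw [h3, h2]
      ring)
    (by
      intro z hz
      constructor
      · intro h0
        have h1 : h z = 0 := by
          exact pow_eq_zero_iff (n := m + 2) (by omega) |>.1 h0
        exact hLoc.inj (hsub hz) hζr (by rw [h1, hLoc.zero])
      · rintro rfl
        show h z ^ (m + 2) = 0
        rw [hLoc.zero, zero_pow (by omega)])
    χ Ω TE y hΩ hχ hmem hlim
  obtain ⟨c, hc⟩ := HIT_root m a TE haT (fun t => h (χ ((t : ℂ) + y * I)))
    (by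
      refine hLoc.diff.continuousOn.comp (t := ball ζ r) ?_ fun t ht => hsub (ha t ht).1
      refine hχ.diff.continuousOn.comp (t := Ω) ?_ fun t ht => hmem t ht.2
      fun_prop)
    (fun t ht => (ha t ht).2.1)
  refine ⟨c, χ, Ω, hΩ, hHP, hL, hmem, hχ, hE, ?_⟩
  filter_upwards [Ioo_mem_nhdsLT haT] with t ht
  exact ⟨hsub (ha t ht).1, hc t ht⟩

end MQ
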